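import Pool.Agent.H.MP_fabcd1_nt.Lim

namespace Pool.Agent.H.MP_fabcd1_nt

open Finset Filter Topology

theorem fourier (E : ℕ → ℂ) (T : ℕ) [NeZero T] (hE : ∀ n, E (n + T) = E n) :
    ∃ β ζ : ZMod T → ℂ, (∀ j, ‖ζ j‖ = 1) ∧ ∀ n, E n = ∑ j, β j * ζ j ^ n := by
  let Φ : ZMod T → ℂ := fun k => E k.val
  refine ⟨fun j => (T : ℂ)⁻¹ * ZMod.dft Φ j, fun j => ZMod.stdAddChar j, fun j => ?_, fun n => ?_⟩
  · exact Circle.norm_coe (ZMod.toCircle j)
  · have h1 : E n = Φ (n : ZMod T) := by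
      simp only [Φ, ZMod.val_natCast]
      exact (Function.Periodic.map_mod_nat (f := E) hE n).symm
    have h2 : Φ (n : ZMod T) = ZMod.dft.symm (ZMod.dft Φ) (n : ZMod T) := by
      rw [LinearEquiv.symm_apply_apply]
    rw [h1, h2, ZMod.invDFT_apply, smul_eq_mul, mul_sum]
    refine sum_congr rfl fun j _ => ?_
    rw [← AddChar.map_nsmul_eq_pow, nsmul_eq_mul, mul_comm (n : ZMod T), smul_eq_mul]
    ring

theorem core (x y : ℂ) (hx : ‖x‖ = 1) (hx2 : x ^ 2 + x + 1 = 0) (hxi : x.im ≤ -0.86)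
    (hy : ‖y‖ = 1) (hy2 : y ^ 2 + y + 1 = 0) (hyi : 0 ≤ y.im)
    (E : ℕ → ℂ) (T : ℕ) (hT : 0 < T) (hE : ∀ n, E (n + T) = E n) (n0 : ℕ)
    (h : ∀ n ≥ n0, ((‖c (od x) n - c (od y) n‖ : ℝ) : ℂ) = E n * (c (od x) n - c (od y) n)) :
    False := by
  have : NeZero T := ⟨hT.ne'⟩
  obtain ⟨β, ζ, hζ, hβ⟩ := fourier E T hE
  set d : ℕ → ℂ := fun n => c (od x) n - c (od y) n with hd
  have hs : ∀ z : ℂ, ‖z‖ < 1 → HasSum (fun n => d n * z ^ n)
      (Complex.exp (G x z) - Complex.exp (G y z)) := fun z hz => by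
    rw [← tsum_od x hx.le z hz, ← tsum_od y hy.le z hz]
    simp only [hd, sub_mul]
    exact (summable_c _ (od_le x hx.le) z hz).of_norm.hasSum.sub
      (summable_c _ (od_le y hy.le) z hz).of_norm.hasSum
  set C : ℝ := ∑ n ∈ range n0, ‖((‖d n‖ : ℝ) : ℂ) - E n * d n‖ with hC
  set B : ℝ := ∑ j, ‖β j‖ with hB
  have C0 : 0 ≤ C := sum_nonneg fun _ _ => norm_nonneg _
  have B0 : 0 ≤ B := sum_nonneg fun _ _ => norm_nonneg _
  have I1 : (1 + Complex.I).re = 1 := by simp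
  have ox := abs_le.1 (offrad x hx hx2)
  have oy := abs_le.1 (offrad y hy hy2)
  have e1 := (lim_G x (-1) (1 + Complex.I) hx (by simp) I1).eventually
    (lt_mem_nhds (a := (0.26 : ℝ)) (by norm_num at ox hxi ⊢; linarith [ox.1]))
  have e2 := (lim_G y (-1) (1 + Complex.I) hy (by simp) I1).eventually
    (gt_mem_nhds (a := (0.255 : ℝ)) (by norm_num at oy ⊢; linarith [oy.2]))
  have e3 := eventually_all.2 fun j => (lim_G x (ζ j) 1 hx (hζ j) (by simp)).eventually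
    (gt_mem_nhds (radial x (ζ j) hx hx2 (hζ j)))
  have e4 := eventually_all.2 fun j => (lim_G y (ζ j) 1 hy (hζ j) (by simp)).eventually
    (gt_mem_nhds (radial y (ζ j) hy hy2 (hζ j)))
  have e5 : ∀ᶠ t : ℝ in 𝓝[>] 0, t < 0.005 / (C + 2 * B + 1) :=
    nhdsWithin_le_nhds (gt_mem_nhds (by positivity))
  obtain ⟨t, ⟨⟨⟨⟨t1, t2⟩, t3⟩, t4⟩, t5⟩, ht⟩ :=
    (((((e1.and e2).and e3).and e4).and e5).and self_mem_nhdsWithin).exists
  have ht : 0 < t := ht
  set r := Real.exp (-t) with hr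
  have r0 : 0 < r := Real.exp_pos _
  have r1 : r < 1 := Real.exp_lt_one_iff.2 (by linarith)
  set W := Real.exp (0.255 / t) with hW
  have W1 : 1 ≤ W := Real.one_le_exp (by positivity)
  have up : ∀ g : ℂ, t * g.re < 0.255 → ‖Complex.exp g‖ ≤ W := fun g hg => by
    rw [Complex.norm_exp]
    exact Real.exp_le_exp.2 (by rw [le_div_iff₀ ht]; linarith)
  set z : ℂ := -1 * Complex.exp (-(t * (1 + Complex.I))) with hz
  have nz : ‖z‖ = r := norm_pt _ _ (by simp) I1 t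
  have sd : Summable fun n => ‖d n * z ^ n‖ := (hs z (by rwa [nz])).summable.norm
  have A : ‖Complex.exp (G x z) - Complex.exp (G y z)‖ ≤ ∑' n, ‖d n * z ^ n‖ := by
    rw [← (hs z (by rwa [nz])).tsum_eq]
    exact norm_tsum_le_tsum_norm sd
  have S1 : HasSum (fun n => (((‖d n‖ : ℝ) : ℂ) - E n * d n) * (r : ℂ) ^ n)
      (∑ n ∈ range n0, (((‖d n‖ : ℝ) : ℂ) - E n * d n) * (r : ℂ) ^ n) :=
    hasSum_sum_of_ne_finset_zero fun n hn => by
      have := h n (by simpa using hn)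
      simp only [hd]
      rw [this, sub_self, zero_mul]
  have S2 : HasSum (fun n => ∑ j, β j * (d n * (ζ j * Complex.exp (-(t * 1))) ^ n))
      (∑ j, β j * (Complex.exp (G x (ζ j * Complex.exp (-(t * 1))))
        - Complex.exp (G y (ζ j * Complex.exp (-(t * 1)))))) :=
    hasSum_sum fun j _ => (hs _ (by rwa [norm_pt _ 1 (hζ j) (by simp)])).mul_left _
  have S3 := Complex.hasSum_ofReal.2 sd.hasSum
  have e : (fun n => ((‖d n * z ^ n‖ : ℝ) : ℂ)) = fun n =>
      (((‖d n‖ : ℝ) : ℂ) - E n * d n) * (r : ℂ) ^ n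
        + ∑ j, β j * (d n * (ζ j * Complex.exp (-(t * 1))) ^ n) := by
    funext n
    have : Complex.exp (-(t * 1)) = (r : ℂ) := by simp [hr]
    rw [norm_mul, norm_pow, nz, this, hβ n, sum_mul, sub_mul, sum_mul, sub_add, ← sum_sub_distrib,
      sum_eq_zero fun j _ => by ring]
    push_cast; ring
  rw [e] at S3
  have U := S3.unique (S1.add S2)
  have Bd : ∑' n, ‖d n * z ^ n‖ ≤ C + B * (2 * W) := by
    refine (le_abs_self _).trans ?_
    rw [← Real.norm_eq_abs, ← Complex.norm_real, U]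
    refine (norm_add_le _ _).trans (add_le_add ?_ ?_)
    · refine (norm_sum_le _ _).trans (sum_le_sum fun n _ => ?_)
      rw [norm_mul, norm_pow, Complex.norm_real, Real.norm_of_nonneg r0.le]
      exact mul_le_of_le_one_right (norm_nonneg _) (pow_le_one₀ r0.le r1.le)
    · rw [hB, sum_mul]
      refine (norm_sum_le _ _).trans (sum_le_sum fun j _ => ?_)
      rw [norm_mul]
      refine mul_le_mul_of_nonneg_left ((norm_sub_le _ _).trans ?_) (norm_nonneg _)
      linarith [up _ (t3 j), up _ (t4 j)]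
  have L : W * (0.005 / t + 1) ≤ ‖Complex.exp (G x z)‖ := by
    rw [Complex.norm_exp]
    refine le_trans (mul_le_mul_of_nonneg_left (Real.add_one_le_exp _) (by linarith)) ?_
    rw [hW, ← Real.exp_add, ← add_div]
    exact Real.exp_le_exp.2 (by rw [div_le_iff₀ ht]; linarith)
  have L2 := norm_sub_norm_le (Complex.exp (G x z)) (Complex.exp (G y z))
  have L3 := up _ t2
  have L4 : C + 2 * B + 1 < 0.005 / t := by
    rw [lt_div_iff₀ (by positivity)] at t5
    rw [lt_div_iff₀ ht]; linarith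
  nlinarith

end Pool.Agent.H.MP_fabcd1_nt
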