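import Mathlib

namespace Pool.Agent.H.MP_fabcd1_nt

open Finset PowerSeries Filter Topology

section generic
variable {K : Type} [RCLike K]

/-- weighted partition count -/
noncomputable def c (a : ℕ → K) (n : ℕ) : K := ∑ p : n.Partition, (p.parts.map a).prod

def Ev (z : K) (φ : K⟦X⟧) (v : K) : Prop :=
  Summable (fun n => ‖coeff n φ * z ^ n‖) ∧ HasSum (fun n => coeff n φ * z ^ n) v

theorem Ev.mul {z : K} {φ ψ : K⟦X⟧} {v w : K} (h1 : Ev z φ v) (h2 : Ev z ψ w) :
    Ev z (φ * ψ) (v * w) := by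
  have e : ∀ n, coeff n (φ * ψ) * z ^ n =
      ∑ kl ∈ antidiagonal n, (coeff kl.1 φ * z ^ kl.1) * (coeff kl.2 ψ * z ^ kl.2) := by
    intro n
    rw [coeff_mul, sum_mul]
    refine sum_congr rfl fun kl hkl => ?_
    rw [← mem_antidiagonal.1 hkl, pow_add]; ring
  have s := summable_norm_sum_mul_antidiagonal_of_summable_norm h1.1 h2.1
  have t := tsum_mul_tsum_eq_tsum_sum_antidiagonal_of_summable_norm h1.1 h2.1
  refine ⟨by simpa only [e] using s, ?_⟩
  simp only [e]
  rw [← h1.2.tsum_eq, ← h2.2.tsum_eq, t]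
  exact s.of_norm.hasSum

theorem Ev.one (z : K) : Ev z 1 1 := by
  constructor
  · refine summable_of_ne_finset_zero (s := {0}) fun n hn => ?_
    have : n ≠ 0 := by simpa using hn
    simp [coeff_one, this]
  · have := hasSum_single (f := fun n => coeff n (1 : K⟦X⟧) * z ^ n) 0 (fun n hn => by
      simp [coeff_one, hn])
    simpa using this

theorem Ev.prod (z : K) (φ : ℕ → K⟦X⟧) (v : ℕ → K) (h : ∀ i, Ev z (φ i) (v i)) (N : ℕ) :
    Ev z (∏ i ∈ range N, φ i) (∏ i ∈ range N, v i) := by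
  induction N with
  | zero => simpa using Ev.one z
  | succ N ih => rw [prod_range_succ, prod_range_succ]; exact ih.mul (h N)

open scoped PowerSeries.WithPiTopology in
noncomputable def geo (a : ℕ → K) (i : ℕ) : K⟦X⟧ :=
  1 + ∑' j, a (i + 1) ^ (j + 1) • (X : K⟦X⟧) ^ ((i + 1) * (j + 1))

open scoped PowerSeries.WithPiTopology in
theorem coeff_geo (a : ℕ → K) (i n : ℕ) :
    coeff n (geo a i) = if (i + 1) ∣ n then a (i + 1) ^ (n / (i + 1)) else 0 := by
  have hs := Nat.Partition.summable_genFun_term (fun i c => a i ^ c) i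
  rw [geo, map_add, hs.map_tsum _ (WithPiTopology.continuous_coeff _ _)]
  simp only [map_smul, coeff_X_pow, smul_eq_mul, mul_ite, mul_one, mul_zero, coeff_one]
  by_cases hd : (i + 1) ∣ n
  · obtain ⟨q, rfl⟩ := hd
    rw [if_pos (dvd_mul_right _ _), Nat.mul_div_cancel_left _ (Nat.succ_pos i)]
    rcases q with _ | q
    · simp
    · rw [if_neg (by positivity), tsum_eq_single q]
      · simp
      · intro b hb
        rw [if_neg]
        intro h
        have := Nat.eq_of_mul_eq_mul_left (Nat.succ_pos i) h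
        omega
  · rw [if_neg hd, if_neg (by rintro rfl; exact hd (dvd_zero _))]
    have : ∀ j, (if n = (i + 1) * (j + 1) then a (i + 1) ^ (j + 1) else 0) = 0 := fun j =>
      if_neg (by rintro rfl; exact hd (dvd_mul_right _ _))
    simp [this]

theorem ev_geo (a : ℕ → K) (i : ℕ) (z : K) (h : ‖a (i + 1) * z ^ (i + 1)‖ < 1) :
    Ev z (geo a i) (1 - a (i + 1) * z ^ (i + 1))⁻¹ := by
  have inj : Function.Injective fun j : ℕ => (i + 1) * j := fun x y hxy =>
    Nat.eq_of_mul_eq_mul_left (Nat.succ_pos i) hxy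
  have z0 : ∀ n ∉ Set.range (fun j : ℕ => (i + 1) * j), coeff n (geo a i) * z ^ n = 0 := by
    intro n hn
    rw [coeff_geo, if_neg, zero_mul]
    rintro ⟨q, rfl⟩
    exact hn ⟨q, rfl⟩
  have e : ∀ j, coeff ((i + 1) * j) (geo a i) * z ^ ((i + 1) * j)
      = (a (i + 1) * z ^ (i + 1)) ^ j := by
    intro j
    rw [coeff_geo, if_pos (dvd_mul_right _ _), Nat.mul_div_cancel_left _ (Nat.succ_pos i),
      mul_pow, pow_mul]
  constructor
  · rw [← inj.summable_iff (fun n hn => by rw [z0 n hn, norm_zero])]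
    simp only [Function.comp_def, e, norm_pow]
    exact summable_geometric_of_lt_one (norm_nonneg _) h
  · rw [← inj.hasSum_iff z0]
    simp only [Function.comp_def, e]
    exact hasSum_geometric_of_norm_lt_one h

theorem coeff_gen (a : ℕ → K) (n : ℕ) :
    coeff n (Nat.Partition.genFun fun i c => a i ^ c) = c a n := by
  rw [Nat.Partition.coeff_genFun, c]
  refine sum_congr rfl fun p _ => ?_
  rw [Finset.prod_multiset_map_count, Finsupp.prod]
  simp

/-- truncated weights -/
noncomputable def tr (a : ℕ → K) (N : ℕ) : ℕ → K := fun i => if i ≤ N then a i else 0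

open scoped PowerSeries.WithPiTopology in
theorem gen_tr (a : ℕ → K) (N : ℕ) :
    (Nat.Partition.genFun fun i c => tr a N i ^ c) = ∏ i ∈ range N, geo a i := by
  have h := Nat.Partition.hasProd_genFun (fun i c => tr a N i ^ c)
  have h2 : HasProd (geo (tr a N)) (∏ i ∈ range N, geo (tr a N) i) :=
    hasProd_prod_of_ne_finset_one fun i hi => by
      have : ¬ (i + 1 ≤ N) := by simpa using hi
      simp [geo, tr, this]
  rw [h.unique h2]
  refine prod_congr rfl fun i hi => ?_
  have : i + 1 ≤ N := by simpa using hi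
  simp [geo, tr, this]

theorem hasSum_tr (a : ℕ → K) (ha : ∀ i, ‖a i‖ ≤ 1) (z : K) (hz : ‖z‖ < 1) (N : ℕ) :
    HasSum (fun n => c (tr a N) n * z ^ n)
      (∏ i ∈ range N, (1 - a (i + 1) * z ^ (i + 1))⁻¹) := by
  have h := Ev.prod z (geo a) (fun i => (1 - a (i + 1) * z ^ (i + 1))⁻¹) (fun i => ev_geo a i z (by
    rw [norm_mul, norm_pow]
    have := pow_lt_one₀ (norm_nonneg z) hz (Nat.add_one_ne_zero i)
    have h2 := ha (i + 1)
    nlinarith [norm_nonneg (a (i + 1)), pow_nonneg (norm_nonneg z) (i + 1)])) N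
  rw [← gen_tr] at h
  simpa only [coeff_gen] using h.2

theorem c_tr (a : ℕ → K) (N n : ℕ) (h : n ≤ N) : c (tr a N) n = c a n := by
  refine sum_congr rfl fun p _ => ?_
  congr 1
  refine Multiset.map_congr rfl fun i hi => ?_
  have : i ≤ n := by
    have := Multiset.single_le_sum (fun x (_ : x ∈ p.parts) => Nat.zero_le x) i hi
    rwa [p.parts_sum] at this
  simp [tr, this.trans h]

theorem norm_c_le (a : ℕ → K) (ha : ∀ i, ‖a i‖ ≤ 1) (n : ℕ) :
    ‖c a n‖ ≤ Fintype.card n.Partition := by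
  refine (norm_sum_le _ _).trans ?_
  rw [← card_univ, card_eq_sum_ones]
  push_cast
  refine sum_le_sum fun p _ => ?_
  induction p.parts using Multiset.induction_on with
  | empty => simp
  | cons b s ih =>
    rw [Multiset.map_cons, Multiset.prod_cons, norm_mul]
    exact mul_le_one₀ (ha b) (norm_nonneg _) ih

end generic

theorem summable_card (r : ℝ) (h0 : 0 ≤ r) (h1 : r < 1) :
    Summable fun n : ℕ => (Fintype.card n.Partition : ℝ) * r ^ n := by
  refine summable_of_sum_range_le (c := Real.exp ((1 - r)⁻¹ * (1 - r)⁻¹))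
    (fun n => by positivity) fun M => ?_
  have h := hasSum_tr (fun _ => (1 : ℝ)) (by simp) r (by rwa [Real.norm_of_nonneg h0]) M
  have nn : ∀ n, 0 ≤ c (tr (fun _ => (1 : ℝ)) M) n * r ^ n := fun n => by
    refine mul_nonneg (sum_nonneg fun p _ => Multiset.prod_nonneg fun x hx => ?_) (by positivity)
    obtain ⟨i, -, rfl⟩ := Multiset.mem_map.1 hx
    unfold tr; split_ifs <;> norm_num
  have e : ∑ n ∈ range M, (Fintype.card n.Partition : ℝ) * r ^ n
      = ∑ n ∈ range M, c (tr (fun _ => (1 : ℝ)) M) n * r ^ n := by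
    refine sum_congr rfl fun n hn => ?_
    rw [c_tr _ _ _ (mem_range.1 hn).le]
    simp [c]
  rw [e]
  refine (sum_le_hasSum _ (fun n _ => nn n) h).trans ?_
  have hr : 0 < 1 - r := by linarith
  calc ∏ i ∈ range M, (1 - 1 * r ^ (i + 1))⁻¹
      ≤ ∏ i ∈ range M, Real.exp (r ^ i * (1 - r)⁻¹) := by
        refine prod_le_prod (fun i _ => ?_) fun i _ => ?_
        · have := pow_lt_one₀ h0 h1 (Nat.add_one_ne_zero i)
          exact inv_nonneg.2 (by simp only [one_mul]; linarith)
        · have p1 : r ^ i ≤ 1 := pow_le_one₀ h0 h1.le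
          have p0 : 0 ≤ r ^ i := pow_nonneg h0 i
          have hp : 0 < 1 - 1 * r ^ (i + 1) := by rw [pow_succ]; nlinarith
          refine le_trans ?_ (Real.add_one_le_exp _)
          rw [inv_le_iff_one_le_mul₀ hp, pow_succ]
          have : (r ^ i * (1 - r)⁻¹ + 1) * (1 - 1 * (r ^ i * r))
              = 1 + r ^ i * ((1 - r ^ i * r) * (1 - r)⁻¹ - r) := by ring
          rw [this]
          have h3 : 1 ≤ (1 - r ^ i * r) * (1 - r)⁻¹ := by
            rw [← div_eq_mul_inv, le_div_iff₀ hr]; nlinarith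
          nlinarith [mul_nonneg p0 (show 0 ≤ (1 - r ^ i * r) * (1 - r)⁻¹ - r by linarith)]
    _ ≤ _ := by
        rw [← Real.exp_sum, ← sum_mul]
        refine Real.exp_le_exp.2 (mul_le_mul_of_nonneg_right ?_ (by positivity))
        exact sum_le_hasSum _ (fun n _ => by positivity) (hasSum_geometric_of_lt_one h0 h1)

theorem summable_c (a : ℕ → ℂ) (ha : ∀ i, ‖a i‖ ≤ 1) (z : ℂ) (hz : ‖z‖ < 1) :
    Summable fun n => ‖c a n * z ^ n‖ := by
  refine Summable.of_nonneg_of_le (fun n => norm_nonneg _) (fun n => ?_)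
    (summable_card ‖z‖ (norm_nonneg z) hz)
  rw [norm_mul, norm_pow]
  exact mul_le_mul_of_nonneg_right (norm_c_le a ha n) (by positivity)

theorem tsum_c (a : ℕ → ℂ) (ha : ∀ i, ‖a i‖ ≤ 1) (z : ℂ) (hz : ‖z‖ < 1) (s : ℂ)
    (hs : HasSum (fun i => -Complex.log (1 - a (i + 1) * z ^ (i + 1))) s) :
    ∑' n, c a n * z ^ n = Complex.exp s := by
  have hta : ∀ N i, ‖tr a N i‖ ≤ 1 := fun N i => by
    unfold tr; split_ifs
    · exact ha i
    · simp
  have t1 : Tendsto (fun N => ∑' n, c (tr a N) n * z ^ n) atTop (𝓝 (∑' n, c a n * z ^ n)) := by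
    refine tendsto_tsum_of_dominated_convergence (summable_card ‖z‖ (norm_nonneg z) hz)
      (fun n => ?_) (Eventually.of_forall fun N n => ?_)
    · refine tendsto_atTop_of_eventually_const (i₀ := n) fun N hN => ?_
      rw [c_tr a N n hN]
    · rw [norm_mul, norm_pow]
      exact mul_le_mul_of_nonneg_right (norm_c_le _ (hta N) n) (by positivity)
  have t2 := (Complex.continuous_exp.tendsto s).comp hs.tendsto_sum_nat
  refine tendsto_nhds_unique t1 (t2.congr fun N => ?_)
  rw [(hasSum_tr a ha z hz N).tsum_eq, Function.comp, Complex.exp_sum]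
  refine prod_congr rfl fun i _ => ?_
  rw [Complex.exp_neg, Complex.exp_log]
  intro h
  have h1 : ‖a (i + 1) * z ^ (i + 1)‖ = 1 := by rw [← sub_eq_zero.1 h, norm_one]
  rw [norm_mul, norm_pow] at h1
  have := pow_lt_one₀ (norm_nonneg z) hz (Nat.add_one_ne_zero i)
  have h2 := ha (i + 1)
  nlinarith [norm_nonneg (a (i + 1)), pow_nonneg (norm_nonneg z) (i + 1)]

/-- weight `x` on odd parts -/
noncomputable def od (x : ℂ) : ℕ → ℂ := fun i => if Odd i then x else 0

noncomputable def G (x z : ℂ) : ℂ := ∑' m : ℕ, x ^ m / m * (z ^ m / (1 - z ^ (2 * m)))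

theorem od_le (x : ℂ) (hx : ‖x‖ ≤ 1) (i : ℕ) : ‖od x i‖ ≤ 1 := by
  unfold od; split_ifs
  · exact hx
  · simp

theorem tsum_od (x : ℂ) (hx : ‖x‖ ≤ 1) (z : ℂ) (hz : ‖z‖ < 1) :
    ∑' n, c (od x) n * z ^ n = Complex.exp (G x z) := by
  refine tsum_c _ (od_le x hx) z hz _ ?_
  let u : ℕ × ℕ → ℂ := fun q => (od x (q.1 + 1) * z ^ (q.1 + 1)) ^ q.2 / q.2
  have g := summable_geometric_of_lt_one (norm_nonneg z) hz
  have su : Summable u := by
    refine Summable.of_norm_bounded (g.mul_of_nonneg g (fun _ => by positivity)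
      (fun _ => by positivity)) ?_
    rintro ⟨i, m⟩
    simp only [u]
    rcases m with _ | m
    · simp
    · rw [norm_div, norm_pow, norm_mul, norm_pow, Complex.norm_natCast, mul_pow, ← pow_mul,
        ← pow_add]
      have h1 : ‖od x (i + 1)‖ ^ (m + 1) ≤ 1 := pow_le_one₀ (norm_nonneg _) (od_le x hx _)
      have h2 : ‖z‖ ^ ((i + 1) * (m + 1)) ≤ ‖z‖ ^ (i + (m + 1)) :=
        pow_le_pow_of_le_one (norm_nonneg z) hz.le (by nlinarith [Nat.zero_le (i * m)])
      refine (div_le_self (by positivity) (by push_cast; linarith [Nat.cast_nonneg (α := ℝ) m])).trans ?_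
      exact (mul_le_of_le_one_left (by positivity) h1).trans h2
  have A : HasSum (fun i => -Complex.log (1 - od x (i + 1) * z ^ (i + 1))) (∑' q, u q) := by
    refine su.hasSum.prod_fiberwise fun i => Complex.hasSum_taylorSeries_neg_log ?_
    rw [norm_mul, norm_pow]
    have := pow_lt_one₀ (norm_nonneg z) hz (Nat.add_one_ne_zero i)
    have h2 := od_le x hx (i + 1)
    nlinarith [norm_nonneg (od x (i + 1)), pow_nonneg (norm_nonneg z) (i + 1)]
  have B : HasSum (fun m : ℕ => x ^ m / m * (z ^ m / (1 - z ^ (2 * m)))) (∑' q, u q) := by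
    have s2 : HasSum (u ∘ Prod.swap) (∑' q, u q) := (Equiv.prodComm ℕ ℕ).hasSum_iff.2 su.hasSum
    refine s2.prod_fiberwise fun m => ?_
    simp only [u, Function.comp, Prod.swap]
    rcases Nat.eq_zero_or_pos m with rfl | hm
    · simp
    · have hy : ‖z ^ (2 * m)‖ < 1 := by
        rw [norm_pow]; exact pow_lt_one₀ (norm_nonneg z) hz (by omega)
      have h1 := (hasSum_geometric_of_norm_lt_one hy).mul_left (x ^ m / m * z ^ m)
      rw [← add_zero (x ^ m / m * (z ^ m / (1 - z ^ (2 * m))))]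
      refine HasSum.even_add_odd ?_ ?_
      · have e1 : (fun k : ℕ => (od x (2 * k + 1) * z ^ (2 * k + 1)) ^ m / (m : ℂ))
            = fun i => x ^ m / m * z ^ m * (z ^ (2 * m)) ^ i := by
          funext k
          have : Odd (2 * k + 1) := odd_two_mul_add_one k
          simp only [od, this, if_true]
          ring
        rw [e1, div_eq_mul_inv (z ^ m), ← mul_assoc]
        exact h1
      · have e2 : (fun k : ℕ => (od x (2 * k + 1 + 1) * z ^ (2 * k + 1 + 1)) ^ m / (m : ℂ))
            = fun _ => 0 := by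
          funext k
          have : ¬ Odd (2 * k + 1 + 1) := by
            rw [Nat.not_odd_iff_even]; exact ⟨k + 1, by ring⟩
          simp [od, this, hm.ne']
        rw [e2]
        exact hasSum_zero
  rw [G, B.tsum_eq]
  exact A

end Pool.Agent.H.MP_fabcd1_nt
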