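import Pool.Agent.H.MP_fabcd1_nt.GF

namespace Pool.Agent.H.MP_fabcd1_nt

open Finset Filter Topology

open Classical in
noncomputable def lam (x ζ τ : ℂ) (m : ℕ) : ℂ :=
  if ζ ^ (2 * m) = 1 then (x * ζ) ^ m / (2 * m ^ 2 * τ) else 0

theorem norm_pt (ζ τ : ℂ) (hζ : ‖ζ‖ = 1) (hτ : τ.re = 1) (t : ℝ) :
    ‖ζ * Complex.exp (-(t * τ))‖ = Real.exp (-t) := by
  rw [norm_mul, hζ, one_mul, Complex.norm_exp]
  simp [hτ]

theorem lim_term (x ζ τ : ℂ) (hτ : τ.re = 1) (m : ℕ) :
    Tendsto (fun t : ℝ => (t : ℂ) * (x ^ m / m * ((ζ * Complex.exp (-(t * τ))) ^ m /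
      (1 - (ζ * Complex.exp (-(t * τ))) ^ (2 * m))))) (𝓝[>] 0) (𝓝 (lam x ζ τ m)) := by
  have hτ0 : τ ≠ 0 := by rintro rfl; simp at hτ
  have cz : Continuous fun t : ℝ => ζ * Complex.exp (-(t * τ)) := by fun_prop
  rcases Nat.eq_zero_or_pos m with rfl | hm
  · simp [lam]
  have hm' : (m : ℂ) ≠ 0 := by exact_mod_cast hm.ne'
  unfold lam
  split_ifs with h
  · have d : HasDerivAt (fun t : ℝ => 1 - (ζ * Complex.exp (-(t * τ))) ^ (2 * m))
        (2 * m * τ) 0 := by
      have e : (fun t : ℝ => 1 - (ζ * Complex.exp (-(t * τ))) ^ (2 * m))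
          = fun t : ℝ => 1 - Complex.exp ((t : ℂ) * (-(2 * m * τ))) := by
        funext t
        rw [mul_pow, h, one_mul, ← Complex.exp_nat_mul]
        congr 2
        push_cast; ring
      rw [e]
      have d1 : HasDerivAt (fun t : ℂ => 1 - Complex.exp (t * (-(2 * m * τ)))) (2 * m * τ)
          ((0 : ℝ) : ℂ) := by
        have := (((hasDerivAt_id ((0 : ℝ) : ℂ)).mul_const (-(2 * m * τ))).cexp).const_sub 1
        simpa using this
      exact d1.comp_ofReal
    have s := d.tendsto_slope_zero_right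
    simp only [zero_add, Complex.ofReal_zero, zero_mul, neg_zero, Complex.exp_zero, mul_one, h,
      sub_self, sub_zero] at s
    have s2 := s.inv₀ (by simp [hm', hτ0])
    have c1 : Tendsto (fun t : ℝ => x ^ m / m * (ζ * Complex.exp (-(t * τ))) ^ m) (𝓝[>] 0)
        (𝓝 (x ^ m / m * ζ ^ m)) := by
      have : Continuous fun t : ℝ => x ^ m / m * (ζ * Complex.exp (-(t * τ))) ^ m := by fun_prop
      simpa using (this.tendsto 0).mono_left nhdsWithin_le_nhds
    have e2 : (x * ζ) ^ m / (2 * m ^ 2 * τ) = x ^ m / m * ζ ^ m * (2 * m * τ)⁻¹ := by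
      field_simp
      rw [mul_pow]
    rw [e2]
    refine (c1.mul s2).congr fun t => ?_
    rw [Complex.real_smul, mul_inv, Complex.ofReal_inv, inv_inv]
    ring
  · have c1 : ContinuousAt (fun t : ℝ => (t : ℂ) * (x ^ m / m * ((ζ * Complex.exp (-(t * τ))) ^ m /
      (1 - (ζ * Complex.exp (-(t * τ))) ^ (2 * m))))) 0 := by
      refine ContinuousAt.mul (by fun_prop) (ContinuousAt.mul (by fun_prop)
        (ContinuousAt.div (by fun_prop) (by fun_prop) ?_))
      have : (1 : ℂ) - ζ ^ (2 * m) ≠ 0 := sub_ne_zero.2 (Ne.symm h)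
      simpa using this
    simpa using c1.tendsto.mono_left nhdsWithin_le_nhds

theorem dom_term (x ζ τ : ℂ) (hx : ‖x‖ = 1) (hζ : ‖ζ‖ = 1) (hτ : τ.re = 1) (m : ℕ) (t : ℝ)
    (ht : 0 < t) :
    ‖(t : ℂ) * (x ^ m / m * ((ζ * Complex.exp (-(t * τ))) ^ m /
      (1 - (ζ * Complex.exp (-(t * τ))) ^ (2 * m))))‖ ≤ 1 / (m : ℝ) ^ 2 := by
  rcases Nat.eq_zero_or_pos m with rfl | hm
  · simp
  have hm' : (0 : ℝ) < m := by exact_mod_cast hm
  set z := ζ * Complex.exp (-(t * τ)) with hz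
  have n1 : ‖z ^ m‖ = Real.exp (-(m * t)) := by
    rw [norm_pow, hz, norm_pt ζ τ hζ hτ, ← Real.exp_nat_mul]; ring_nf
  set E := Real.exp (-(m * t)) with hE
  have E0 : 0 < E := Real.exp_pos _
  have hs : 0 < m * t := by positivity
  have E1 : E * (m * t + 1) ≤ 1 := by
    have := Real.add_one_le_exp (m * t)
    rw [hE, Real.exp_neg, inv_mul_le_iff₀ (Real.exp_pos _)]
    linarith
  have n2 : E * (m * t) ≤ ‖1 - z ^ (2 * m)‖ := by
    have h1 := norm_sub_norm_le (1 : ℂ) (z ^ (2 * m))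
    rw [norm_one, two_mul, pow_add, norm_mul, n1, ← pow_add, ← two_mul] at h1
    have : E ≤ 1 := by nlinarith
    nlinarith
  have p : 0 < ‖1 - z ^ (2 * m)‖ := lt_of_lt_of_le (by positivity) n2
  rw [norm_mul, norm_mul, norm_div, norm_div, norm_pow x, hx, n1, Complex.norm_natCast,
    Complex.norm_real, Real.norm_of_nonneg ht.le, one_pow]
  have : E / ‖1 - z ^ (2 * m)‖ ≤ 1 / (m * t) := by
    rw [div_le_div_iff₀ p hs]; linarith
  calc t * (1 / m * (E / ‖1 - z ^ (2 * m)‖)) ≤ t * (1 / m * (1 / (m * t))) := by gcongr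
    _ = _ := by field_simp

theorem lim_G (x ζ τ : ℂ) (hx : ‖x‖ = 1) (hζ : ‖ζ‖ = 1) (hτ : τ.re = 1) :
    Tendsto (fun t : ℝ => t * (G x (ζ * Complex.exp (-(t * τ)))).re) (𝓝[>] 0)
      (𝓝 (∑' m, lam x ζ τ m).re) := by
  have h := tendsto_tsum_of_dominated_convergence (𝓕 := 𝓝[>] (0 : ℝ)) hasSum_zeta_two.summable
    (lim_term x ζ τ hτ) (eventually_nhdsWithin_of_forall fun t ht m =>
      dom_term x ζ τ hx hζ hτ m t ht)
  refine ((Complex.continuous_re.tendsto _).comp h).congr fun t => ?_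
  simp only [Function.comp, tsum_mul_left, G, Complex.re_ofReal_mul]

theorem lam_le (x ζ τ : ℂ) (hx : ‖x‖ = 1) (hζ : ‖ζ‖ = 1) (m : ℕ) :
    ‖lam x ζ τ m‖ ≤ (2 * ‖τ‖)⁻¹ * (1 / (m : ℝ) ^ 2) := by
  unfold lam
  split_ifs
  · rw [norm_div, norm_pow, norm_mul, hx, hζ, norm_mul, norm_mul, norm_pow, Complex.norm_natCast]
    simp only [mul_one, one_pow, Complex.norm_ofNat]
    apply le_of_eq
    ring
  · simp only [norm_zero]; positivity

theorem tail (x ζ τ : ℂ) (hx : ‖x‖ = 1) (hζ : ‖ζ‖ = 1) :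
    |(∑' m, lam x ζ τ m).re - ∑ m ∈ range 7, (lam x ζ τ m).re| ≤ (2 * ‖τ‖)⁻¹ * 0.154 := by
  have sb := hasSum_zeta_two.mul_left (2 * ‖τ‖)⁻¹
  have sl : Summable (lam x ζ τ) := Summable.of_norm_bounded sb.summable (lam_le x ζ τ hx hζ)
  rw [← sl.sum_add_tsum_nat_add 7, Complex.add_re, Complex.re_sum, add_sub_cancel_left]
  refine (Complex.abs_re_le_norm _).trans ?_
  refine (tsum_of_norm_bounded ((hasSum_nat_add_iff' 7).2 sb) fun m => lam_le x ζ τ hx hζ _).trans ?_
  rw [← mul_sum, ← mul_sub]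
  refine mul_le_mul_of_nonneg_left ?_ (by positivity)
  simp only [sum_range_succ, sum_range_zero]
  have := Real.pi_lt_d4
  have h0 := Real.pi_pos
  norm_num
  nlinarith

theorem x_re (x : ℂ) (hx : ‖x‖ = 1) (hx2 : x ^ 2 + x + 1 = 0) : x.re = -1 / 2 := by
  have h1 : x * (starRingEnd ℂ) x = 1 := by
    rw [Complex.mul_conj, Complex.normSq_eq_norm_sq, hx]; simp
  have h2 : x + (starRingEnd ℂ) x = -1 := by
    linear_combination ((starRingEnd ℂ) x) * hx2 - (x + 1) * h1
  have := congrArg Complex.re h2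
  simp at this
  linarith

theorem offrad (x : ℂ) (hx : ‖x‖ = 1) (hx2 : x ^ 2 + x + 1 = 0) :
    |(∑' m, lam x (-1) (1 + Complex.I) m).re - (2019 / 7200 - 459 / 400 * x.im) / 4| ≤ 0.055 := by
  have T := tail x (-1) (1 + Complex.I) hx (by simp)
  have xre := x_re x hx hx2
  have hx3 : x ^ 3 = 1 := by linear_combination (x - 1) * hx2
  have n : 1.4 ≤ ‖1 + Complex.I‖ := by
    have : ‖1 + Complex.I‖ ^ 2 = 2 := by
      rw [← Complex.normSq_eq_norm_sq]; simp [Complex.normSq_apply]; norm_num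
    nlinarith [norm_nonneg (1 + Complex.I)]
  have n2 : (2 * ‖1 + Complex.I‖)⁻¹ * 0.154 ≤ 0.055 := by
    rw [inv_mul_le_iff₀ (by positivity)]; linarith
  have ii : (1 + Complex.I)⁻¹ = (1 - Complex.I) / 2 := by
    refine inv_eq_of_mul_eq_one_right ?_
    linear_combination (-1 / 2) * Complex.I_sq
  have e : ∀ (m : ℕ) (A B : ℝ), (-x) ^ m = A + B * x → (lam x (-1) (1 + Complex.I) m).re
      = (A - B / 2 + B * x.im) / (4 * m ^ 2) := by
    intro m A B h
    have : lam x (-1) (1 + Complex.I) m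
        = ((4 * m ^ 2 : ℝ)⁻¹ : ℝ) * ((A + B * x) * (1 - Complex.I)) := by
      rw [lam, if_pos (by rw [pow_mul]; simp), mul_neg_one, h, div_eq_mul_inv, mul_inv, ii]
      push_cast
      ring
    rw [this, Complex.re_ofReal_mul]
    simp [xre]
    ring
  have e0 := e 0 1 0 (by simp)
  have e1 := e 1 0 (-1) (by push_cast; ring)
  have e2 := e 2 (-1) (-1) (by push_cast; linear_combination hx2)
  have e3 := e 3 (-1) 0 (by push_cast; linear_combination -hx3)
  have e4 := e 4 0 1 (by push_cast; linear_combination x * hx3)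
  have e5 := e 5 1 1 (by push_cast; linear_combination -x ^ 2 * hx3 - hx2)
  have e6 := e 6 1 0 (by push_cast; linear_combination (x ^ 3 + 1) * hx3)
  simp only [sum_range_succ, sum_range_zero, e0, e1, e2, e3, e4, e5, e6] at T
  refine le_trans (le_of_eq ?_) (T.trans n2)
  congr 2
  push_cast
  ring

theorem radial (x ζ : ℂ) (hx : ‖x‖ = 1) (hx2 : x ^ 2 + x + 1 = 0) (hζ : ‖ζ‖ = 1) :
    (∑' m, lam x ζ 1 m).re < 0.255 := by
  have T := (abs_le.1 (tail x ζ 1 hx hζ)).2
  simp only [norm_one, mul_one] at T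
  suffices ∑ m ∈ range 7, (lam x ζ 1 m).re ≤ 0.171 by norm_num at T this ⊢; linarith
  have hx3 : x ^ 3 = 1 := by linear_combination (x - 1) * hx2
  have xre := x_re x hx hx2
  have x2re : (x ^ 2).re = -1 / 2 := by
    have : x ^ 2 = -x - 1 := by linear_combination hx2
    rw [this]; simp [xre]; norm_num
  have b : ∀ m, (lam x ζ 1 m).re ≤ 1 / 2 * (1 / (m : ℝ) ^ 2) := fun m => by
    have := (Complex.re_le_norm _).trans (lam_le x ζ 1 hx hζ m)
    simpa using this
  have z : ∀ m, ζ ^ (2 * m) ≠ 1 → (lam x ζ 1 m).re = 0 := fun m h => by simp [lam, h]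
  simp only [sum_range_succ, sum_range_zero]
  have b0 := b 0; have b1 := b 1; have b2 := b 2; have b3 := b 3; have b4 := b 4
  have b5 := b 5; have b6 := b 6
  norm_num at b0 b1 b2 b3 b4 b5 b6 ⊢
  by_cases h1 : ζ ^ 2 = 1
  · have h2 : (lam x ζ 1 2).re = -1 / 16 := by
      have : lam x ζ 1 2 = (1 / 8 : ℝ) * x ^ 2 := by
        rw [lam, if_pos (by rw [pow_mul, h1]; simp), mul_pow, h1]; push_cast; ring
      rw [this, Complex.re_ofReal_mul, x2re]; norm_num
    have h4 : (lam x ζ 1 4).re = -1 / 64 := by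
      have : lam x ζ 1 4 = (1 / 32 : ℝ) * x := by
        rw [lam, if_pos (by rw [pow_mul, h1]; simp)]; push_cast
        linear_combination (x ^ 4 * (ζ ^ 2 + 1) / 32) * h1 + (x / 32) * hx3
      rw [this, Complex.re_ofReal_mul, xre]; norm_num
    rcases sq_eq_one_iff.1 h1 with rfl | rfl
    · have h1' : (lam x 1 1 1).re = -1 / 4 := by
        have : lam x 1 1 1 = (1 / 2 : ℝ) * x := by rw [lam, if_pos (by simp)]; push_cast; ring
        rw [this, Complex.re_ofReal_mul, xre]; norm_num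
      linarith
    · have h1' : (lam x (-1) 1 1).re = 1 / 4 := by
        have : lam x (-1) 1 1 = (-1 / 2 : ℝ) * x := by
          rw [lam, if_pos (by simp)]; push_cast; ring
        rw [this, Complex.re_ofReal_mul, xre]; norm_num
      have h3 : (lam x (-1) 1 3).re = -1 / 18 := by
        have : lam x (-1) 1 3 = (-1 / 18 : ℝ) := by
          rw [lam, if_pos (by norm_num)]; push_cast
          linear_combination (-1 / 18) * hx3
        rw [this, Complex.ofReal_re]
      linarith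
  · have z1 := z 1 (by simpa using h1)
    by_cases h2 : ζ ^ (2 * 2) = 1
    · have z3 := z 3 fun h => h1 (by linear_combination h - ζ ^ 2 * h2)
      have z5 := z 5 fun h => h1 (by linear_combination h - ζ ^ 2 * (ζ ^ 4 + 1) * h2)
      linarith
    · have z2 := z 2 h2
      linarith

end Pool.Agent.H.MP_fabcd1_nt
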